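import Pool.Agent.V11242.SC.Final

/-!
MP_faaf88_co, Q1 (full, positive answer): every finite connected cubic graph `A` (multiple edges,
loops and semi-edges allowed) that is not 3-edge-colourable is covered by a simple, 2-connected
graph `H` that is not 3-edge-colourable.
-/

namespace Pool.Agent.Results.MP_faaf88_co.SnarkCover

open Pool.Agent.V11242.SC

variable {V D W : Type}

/-- A cubic graph with vertex set `V` and set of edge-ends `D`; multiple edges, loops and
semi-edges are allowed. `base d` is the vertex of the edge-end `d` and `opp d` is the other end of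
the edge of `d`; for a semi-edge, which has one end only, `opp d = d`. A loop is an edge with two
distinct ends `d`, `opp d` at the same vertex. -/
structure CubicGraph (V D : Type) where
  base : D → V
  opp : D → D
  opp_opp : ∀ d, opp (opp d) = d
  cubic : ∀ v, Nat.card {d // base d = v} = 3

/-- Connected: there is a vertex, and any two vertices are joined by a walk. -/
def CubicGraph.Connected (A : CubicGraph V D) : Prop :=
  Nonempty V ∧ ∀ x y : V,
    Relation.ReflTransGen (fun x y => ∃ d, A.base d = x ∧ A.base (A.opp d) = y) x y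

/-- A 3-edge-colouring: the colour depends on the edge only, and distinct edge-ends at the same
vertex have distinct colours. -/
def CubicGraph.ThreeEdgeColourable (A : CubicGraph V D) : Prop :=
  ∃ c : D → Fin 3, (∀ d, c (A.opp d) = c d) ∧
    ∀ d e, A.base d = A.base e → d ≠ e → c d ≠ c e

/-- A 3-edge-colouring of a simple graph: a proper colouring of the edges with three colours. -/
def ThreeEdgeColourable (H : SimpleGraph W) : Prop :=
  ∃ c : Sym2 W → Fin 3, ∀ x y z, H.Adj x y → H.Adj x z → y ≠ z → c s(x, y) ≠ c s(x, z)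

/-- The simple graph `H` covers `A`: a surjective map of vertices and a map of edge-ends (the
darts of `H`) which sends the edge-ends at `w` bijectively to the edge-ends at `f w` and the two
ends of an edge of `H` to the two ends of an edge of `A`, or both to the end of a semi-edge. -/
def Covers (H : SimpleGraph W) (A : CubicGraph V D) : Prop :=
  ∃ (f : W → V) (φ : H.Dart → D), Function.Surjective f ∧ (∀ a, A.base (φ a) = f a.fst) ∧
    (∀ a : H.Dart, φ a.symm = A.opp (φ a)) ∧
    ∀ (w : W) (d : D), A.base d = f w → ∃! a : H.Dart, a.fst = w ∧ φ a = d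

/-- 2-connected: connected, with at least three vertices, and connected after the deletion of any
one vertex. -/
def TwoConnected (H : SimpleGraph W) : Prop :=
  H.Connected ∧ 3 ≤ Nat.card W ∧ ∀ v : W, (H.induce {v}ᶜ).Connected

theorem result (V D : Type) [Finite V] [Finite D] (A : CubicGraph V D) (hconn : A.Connected)
    (hA : ¬ A.ThreeEdgeColourable) :
    ∃ (W : Type) (_ : Finite W) (H : SimpleGraph W),
      TwoConnected H ∧ ¬ ThreeEdgeColourable H ∧ Covers H A := by
  classical
  let e : ∀ v, {d // A.base d = v} ≃ Fin 3 := fun v => Finite.equivFinOfCardEq (A.cubic v)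
  let toD : V × Fin 3 → D := fun p => ((e p.1).symm p.2).1
  let ofD : D → V × Fin 3 := fun d => (A.base d, e (A.base d) ⟨d, rfl⟩)
  have h1 : ∀ d, toD (ofD d) = d := by
    intro d
    simp [toD, ofD]
  have hbase : ∀ p, A.base (toD p) = p.1 := fun p => ((e p.1).symm p.2).2
  have h2 : ∀ p, ofD (toD p) = p := by
    rintro ⟨v, i⟩
    obtain ⟨⟨d, hd⟩, hx⟩ : ∃ x, (e v).symm i = x := ⟨_, rfl⟩
    have h3 : toD (v, i) = d := by
      show ((e v).symm i).1 = d
      rw [hx]
    rw [h3]
    subst hd
    show (A.base d, e (A.base d) ⟨d, rfl⟩) = (A.base d, i)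
    rw [← hx, Equiv.apply_symm_apply]
  let B : CG V := ⟨fun p => ofD (A.opp (toD p)), fun p => by
    show ofD (A.opp (toD (ofD (A.opp (toD p))))) = p
    rw [h1, A.opp_opp, h2]⟩
  have hB : ∀ p, B.lam p = ofD (A.opp (toD p)) := fun p => rfl
  have hncol : ¬ B.Col4 := by
    rw [← B.col_iff]
    rintro ⟨c, hc1, hc2⟩
    apply hA
    refine ⟨fun d => c (ofD d), fun d => ?_, fun d d' hdd hne hcc => ?_⟩
    · have := hc1 (ofD d)
      rw [hB, h1] at this
      exact this
    · apply hne
      have hv : (ofD d).1 = (ofD d').1 := hdd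
      have hcc' : c ((ofD d).1, (ofD d).2) = c ((ofD d).1, (ofD d').2) := by
        rw [Prod.mk.eta]
        rw [hv, Prod.mk.eta]
        exact hcc
      have hi := hc2 (ofD d).1 hcc'
      have : ofD d = ofD d' := Prod.ext hv hi
      rw [← h1 d, this, h1]
  obtain ⟨X, hX, C, f, hne, hcov, hns, hnb, hS, hRc, hnC⟩ := main_cover B hncol
  refine ⟨X, hX, toG C hS, two_conn C hS hRc hnb, ?_, ?_⟩
  · rintro ⟨c, hc⟩
    apply hnC
    rw [← C.col_iff]
    refine ⟨fun p => c s(p.1, (C.lam p).1), ?_, ?_⟩
    · intro p
      show c s((C.lam p).1, (C.lam (C.lam p)).1) = c s(p.1, (C.lam p).1)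
      rw [C.inv, Sym2.eq_swap]
    · intro w i j hij
      by_contra hne
      exact hc w (C.lam (w, i)).1 (C.lam (w, j)).1 ⟨i, rfl⟩ ⟨j, rfl⟩
        (fun h => hne (hS.2 w i j h)) hij
  · let ix : (toG C hS).Dart → Fin 3 := fun a => Classical.choose a.adj
    have hix : ∀ a, (C.lam (a.fst, ix a)).1 = a.snd := fun a => Classical.choose_spec a.adj
    have hix2 : ∀ a : (toG C hS).Dart, C.lam (a.fst, ix a) = (a.snd, ix a.symm) := by
      intro a
      have h3 := hix a.symm
      have h4 : C.lam (a.snd, (C.lam (a.fst, ix a)).2) = (a.fst, ix a) := by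
        have h5 := C.inv (a.fst, ix a)
        rw [← hix a]
        exact h5
      have h6 : (C.lam (a.snd, (C.lam (a.fst, ix a)).2)).1 = (C.lam (a.snd, ix a.symm)).1 := by
        rw [h4]
        exact h3.symm
      exact Prod.ext (hix a) (hS.2 _ _ _ h6)
    let φ : (toG C hS).Dart → D := fun a => toD (f a.fst, ix a)
    have hφ1 : ∀ a, A.base (φ a) = f a.fst := fun a => hbase _
    have hφ2 : ∀ a : (toG C hS).Dart, φ a.symm = A.opp (φ a) := by
      intro a
      have h3 := hcov a.fst (ix a)
      rw [hix2, hB] at h3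
      have h4 := congrArg toD h3
      rw [h1] at h4
      exact h4.symm
    have hφ3 : ∀ (w : X) (d : D), A.base d = f w →
        ∃! a : (toG C hS).Dart, a.fst = w ∧ φ a = d := by
      intro w d hd
      have hof : ofD d = (f w, (ofD d).2) := Prod.ext hd rfl
      let a : (toG C hS).Dart := ⟨(w, (C.lam (w, (ofD d).2)).1), ⟨_, rfl⟩⟩
      have ha : ix a = (ofD d).2 := hS.2 w _ _ (hix a)
      refine ⟨a, ⟨rfl, ?_⟩, ?_⟩
      · show toD (f w, ix a) = d
        rw [ha, ← hof, h1]
      · rintro b ⟨hb1, hb2⟩
        have h3 : ofD (φ b) = (f b.fst, ix b) := h2 _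
        rw [hb2] at h3
        have h4 : ix b = (ofD d).2 := by rw [h3]
        have h5 := hix b
        rw [h4, hb1] at h5
        apply SimpleGraph.Dart.ext
        exact Prod.ext hb1 h5.symm
    refine ⟨f, φ, ?_, hφ1, hφ2, hφ3⟩
    obtain ⟨w0⟩ := hne
    intro y
    have hy := hconn.2 (f w0) y
    induction hy with
    | refl => exact ⟨w0, rfl⟩
    | tail _ h3 ih =>
      obtain ⟨w, hw⟩ := ih
      obtain ⟨d, hd1, hd2⟩ := h3
      obtain ⟨a, ⟨ha1, ha2⟩, _⟩ := hφ3 w d (hd1.trans hw.symm)
      refine ⟨a.snd, ?_⟩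
      have h4 := hφ1 a.symm
      rw [hφ2, ha2, hd2] at h4
      exact h4.symm

end Pool.Agent.Results.MP_faaf88_co.SnarkCover
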